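import Mathlib
import Pool.Agent.H36PD4.Defs

set_option autoImplicit false

/-!
# Duality in dimension `k + 2`: definitions
-/

namespace Pool.Agent.H36PDN

open Pool.Agent.H36PD4

/-- The cap product of a real `(k + 2)`-chain with a `(k + 1)`-cochain (the cochain is evaluated on the
first `k + 2` vertices). -/
noncomputable def capTop {G V : Type} [AddCommGroup V] [Module ℝ V] {k : ℕ} (μ : Chain G (k + 2) ℝ)
    (F : (Fin (k + 2) → G) → V) : Chain G 1 V :=
  μ.sum fun σ r => Finsupp.single ![σ (Fin.last (k + 1)).castSucc, σ (Fin.last (k + 2))]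
    (r • F (fun i => σ i.castSucc))

/-- The cap product of a real `(k + 2)`-chain with a 1-cochain (the cochain is evaluated on the last two
vertices). -/
noncomputable def capOne {G V : Type} [AddCommGroup V] [Module ℝ V] {k : ℕ} (μ : Chain G (k + 2) ℝ)
    (c : (Fin 2 → G) → V) : Chain G (k + 1) V :=
  μ.sum fun σ r => Finsupp.single (fun i => σ i.castSucc)
    (r • c ![σ (Fin.last (k + 1)).castSucc, σ (Fin.last (k + 2))])

/-- Duality in dimension `n = k + 2` over the real numbers. There are an orientation character `w` and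
an `n`-cycle `μ` with coefficients in the reals twisted by `w`, such that for every real representation
`V` of `G` the cap products with `μ`
`H^(n-1)(G; V) → H_1(G; V ⊗ w)` and `H^1(G; V) → H_(n-1)(G; V ⊗ w)` are surjective. -/
def Duality (k : ℕ) (G : Type) [Group G] : Prop :=
  ∃ (w : G →* ℤˣ) (μ : Chain G (k + 2) ℝ),
    vbd μ ∈ Rel (tw w (1 : Representation ℝ G ℝ)) (k + 1) ∧
    (∀ (V : Type) [AddCommGroup V] [Module ℝ V] (ρ : Representation ℝ G V) (z : Chain G 1 V),
      vbd z ∈ Rel (tw w ρ) 0 →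
      ∃ F : (Fin (k + 2) → G) → V, Equi ρ F ∧ Cocyc F ∧
        ∃ u : Chain G 2 V, z - capTop μ F - vbd u ∈ Rel (tw w ρ) 1) ∧
    (∀ (V : Type) [AddCommGroup V] [Module ℝ V] (ρ : Representation ℝ G V) (z : Chain G (k + 1) V),
      vbd z ∈ Rel (tw w ρ) k →
      ∃ c : (Fin 2 → G) → V, Equi ρ c ∧ Cocyc c ∧
        ∃ u : Chain G (k + 2) V, z - capOne μ c - vbd u ∈ Rel (tw w ρ) (k + 1))

end Pool.Agent.H36PDN
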