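import Mathlib
import Pool.Agent.AutDim3.Main
import Pool.Agent.H9DimN.Vanish
import Pool.Agent.H36PD4.Alg
import Pool.Agent.H36PDN.Defs

set_option autoImplicit false

/-!
# The transfer of a fundamental chain
-/

namespace Pool.Agent.H36PDN

open Pool.Agent.AutDim3 Pool.Agent.H36PD4 Pool.Agent.H9DimN

theorem exists_ofFn {A : Type} {j : ℕ} {l : List A} (h : l.length = j) :
    ∃ σ : Fin j → A, l = List.ofFn σ := by
  subst h
  exact ⟨l.get, (List.ofFn_get l).symm⟩

theorem bd_ofFn {A : Type} : ∀ {j : ℕ} (τ : Fin (j + 1) → A),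
    bd (sg (List.ofFn τ)) = ∑ i : Fin (j + 1), (-1 : ℝ) ^ (i : ℕ) •
      sg (List.ofFn fun m => τ (i.succAbove m)) := by
  intro j
  induction j with
  | zero =>
    intro τ
    rw [List.ofFn_succ, List.ofFn_zero, bd_cons, bd_nil, map_zero, sub_zero, Fin.sum_univ_one]
    simp
  | succ j ih =>
    intro τ
    rw [List.ofFn_succ, bd_cons, ih, map_sum, sub_eq_add_neg, ← Finset.sum_neg_distrib]
    conv_rhs => rw [Fin.sum_univ_succ]
    congr 1
    · simp
    · apply Finset.sum_congr rfl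
      intro i _
      rw [map_smul, cone_sg, Fin.val_succ, pow_succ, mul_neg_one, neg_smul]
      congr 3
      rw [List.ofFn_succ (f := fun m => τ (i.succ.succAbove m))]
      simp

/-- Functionals on chains from functions of tuples. -/
noncomputable def ofF {G : Type} {j : ℕ} (f : (Fin j → G) → ℝ) : Ch G →ₗ[ℝ] ℝ :=
  Finsupp.linearCombination ℝ fun l : List G =>
    if h : l.length = j then f (fun i => l.get (i.cast h.symm)) else 0

theorem ofF_sg {G : Type} {j : ℕ} (f : (Fin j → G) → ℝ) (σ : Fin j → G) :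
    ofF f (sg (List.ofFn σ)) = f σ := by
  simp only [ofF, sg, Finsupp.linearCombination_single, one_smul]
  rw [dif_pos (List.length_ofFn)]
  congr 1
  ext i
  simp

theorem ofF_sg_ne {G : Type} {j : ℕ} (f : (Fin j → G) → ℝ) {l : List G} (h : l.length ≠ j) :
    ofF f (sg l) = 0 := by
  simp only [ofF, sg, Finsupp.linearCombination_single, one_smul]
  rw [dif_neg h]

/-- The chain of `G` with constant coefficient `v₀` of a chain of a group which maps to `G`. -/
noncomputable def T {N G V : Type} [Group N] [Group G] [AddCommGroup V] [Module ℝ V] (φ : N →* G)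
    (v₀ : V) (k : ℕ) : Ch N →ₗ[ℝ] Chain G k V :=
  Finsupp.linearCombination ℝ fun l : List N =>
    if h : l.length = k + 1 then Finsupp.single (fun i => φ (l.get (i.cast h.symm))) v₀ else 0

theorem T_sg_ne {N G V : Type} [Group N] [Group G] [AddCommGroup V] [Module ℝ V] (φ : N →* G)
    (v₀ : V) (k : ℕ) {l : List N} (h : l.length ≠ k + 1) : T φ v₀ k (sg l) = 0 := by
  simp only [T, sg, Finsupp.linearCombination_single, one_smul]
  rw [dif_neg h]

theorem T_sg {N G V : Type} [Group N] [Group G] [AddCommGroup V] [Module ℝ V] (φ : N →* G)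
    (v₀ : V) {k : ℕ} (σ : Fin (k + 1) → N) :
    T φ v₀ k (sg (List.ofFn σ)) = Finsupp.single (fun i => φ (σ i)) v₀ := by
  simp only [T, sg, Finsupp.linearCombination_single, one_smul]
  rw [dif_pos (List.length_ofFn)]
  congr 1
  ext i
  rw [List.get_ofFn]
  rfl

theorem T_bd {N G V : Type} [Group N] [Group G] [AddCommGroup V] [Module ℝ V] (φ : N →* G)
    (v₀ : V) {k : ℕ} {w : Ch N} (hw : w ∈ Deg (G := N) (k + 2)) :
    T φ v₀ k (bd w) = vbd (T φ v₀ (k + 1) w) := by
  have := eq_of_sg (T φ v₀ k ∘ₗ bd) (vbd ∘ₗ T φ v₀ (k + 1)) (fun l hl => by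
    obtain ⟨τ, rfl⟩ := exists_ofFn hl
    rw [LinearMap.comp_apply, LinearMap.comp_apply, T_sg, vbd_single, bd_ofFn, map_sum]
    apply Finset.sum_congr rfl
    intro i _
    rw [map_smul, T_sg]) hw
  exact this

/-- The transfer of the fundamental chain is a cycle. -/
theorem T_cycle {N G V : Type} [Group N] [Group G] [AddCommGroup V] [Module ℝ V] {k : ℕ}
    (fd : Fund N (k + 1)) (φ : N →* G)
    (ρ : Representation ℝ G V) (v₀ : V) (h : ∀ n, ρ (φ n) v₀ = v₀) :
    vbd (T φ v₀ (k + 1) fd.z) ∈ Rel ρ k := by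
  rw [← T_bd φ v₀ fd.mem, ← Submodule.Quotient.mk_eq_zero, ← Submodule.mkQ_apply]
  rw [← Module.forall_dual_apply_eq_zero_iff ℝ]
  intro f
  have := fd.cyc (f ∘ₗ (Rel ρ k).mkQ ∘ₗ T φ v₀ k) (by
    intro n l
    simp only [LinearMap.comp_apply, MonoidHom.id_apply]
    by_cases hl : l.length = k + 1
    · obtain ⟨σ, rfl⟩ := exists_ofFn hl
      rw [List.map_ofFn, T_sg, T_sg]
      congr 1
      rw [Submodule.mkQ_apply, Submodule.mkQ_apply, Submodule.Quotient.eq]
      apply Submodule.subset_span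
      refine ⟨φ n, fun i => φ (σ i), v₀, ?_⟩
      rw [h]
      congr 2
      ext i
      simp
    · rw [T_sg_ne φ v₀ k hl, T_sg_ne φ v₀ k (by simpa using hl)])
  exact this

/-- The pairing of the transfer with a functional-valued cochain. -/
theorem T_pair {N G V : Type} [Group N] [Group G] [AddCommGroup V] [Module ℝ V] {k : ℕ}
    (φ : N →* G) (v₀ : V) (Φ : (Fin (k + 1) → G) → (V →ₗ[ℝ] ℝ)) {w : Ch N}
    (hw : w ∈ Deg (G := N) (k + 1)) :
    pair Φ (T φ v₀ k w) = ofF (fun σ => Φ σ v₀) (push φ w) := by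
  have := eq_of_sg (pair Φ ∘ₗ T φ v₀ k) (ofF (fun σ => Φ σ v₀) ∘ₗ push φ) (fun l hl => by
    obtain ⟨σ, rfl⟩ := exists_ofFn hl
    rw [LinearMap.comp_apply, LinearMap.comp_apply, T_sg, pair_single, push_sg, List.map_ofFn,
      ofF_sg]
    rfl) hw
  exact this

/-- An invariant function is bounded on lists of bounded length and diameter. -/
theorem bounded_of_inv {G : Type} [Group G] (C : Comb G) {j : ℕ} (f : (Fin (j + 1) → G) → ℝ)
    (hf : ∀ (g : G) (σ : Fin (j + 1) → G), f (fun i => g * σ i) = f σ) (R : ℕ) :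
    ∃ M : ℝ, ∀ σ : Fin (j + 1) → G, C.Small R (List.ofFn σ) → f σ ≤ M := by
  classical
  have hfin : {σ : Fin (j + 1) → G | ∀ i, C.len (σ i) ≤ R}.Finite := by
    have hb := C.fin_ball R
    exact Set.Finite.pi' (t := fun _ : Fin (j + 1) => {g : G | C.len g ≤ R}) (fun _ => hb)
  obtain ⟨M, hM⟩ := (hfin.image f).bddAbove
  refine ⟨M, ?_⟩
  intro σ hs
  rw [← hf (σ 0)⁻¹ σ]
  apply hM
  refine ⟨_, ?_, rfl⟩
  intro i
  exact hs (σ 0) (by rw [List.mem_ofFn]; exact ⟨0, rfl⟩) (σ i) (by rw [List.mem_ofFn]; exact ⟨i, rfl⟩)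

/-- A cocycle which is invariant under a group with a fundamental chain and bounded by a `G`-invariant
function vanishes on the fundamental chain. -/
theorem fund_zero {N G : Type} [Group N] [Group G] {k : ℕ} (fd : Fund N (k + 1))
    (hG : IsAutomatic G) (φ : N →* G)
    (f : (Fin (k + 2) → G) → ℝ)
    (hf : ∀ (n : N) (σ : Fin (k + 2) → G), f (fun i => φ n * σ i) = f σ)
    (B : (Fin (k + 2) → G) → ℝ)
    (hB : ∀ (g : G) (σ : Fin (k + 2) → G), B (fun i => g * σ i) = B σ)
    (hfB : ∀ σ, |f σ| ≤ B σ)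
    (hc : ∀ τ : Fin (k + 3) → G,
      ∑ i : Fin (k + 3), (-1 : ℝ) ^ (i : ℕ) * f (fun j => τ (i.succAbove j)) = 0) :
    ofF f (push φ fd.z) = 0 := by
  obtain ⟨C⟩ := exists_comb G hG
  refine vanish fd C φ (ofF f) ?_ ?_ ?_
  · intro n l
    by_cases hl : l.length = k + 2
    · obtain ⟨σ, rfl⟩ := exists_ofFn hl
      rw [List.map_ofFn, ofF_sg, ofF_sg]
      exact hf n σ
    · rw [ofF_sg_ne f hl, ofF_sg_ne f (by simpa using hl)]
  · intro l hl
    obtain ⟨τ, rfl⟩ := exists_ofFn hl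
    rw [bd_ofFn, map_sum, ← hc τ]
    apply Finset.sum_congr rfl
    intro i _
    rw [map_smul, ofF_sg, smul_eq_mul]
  · intro R
    obtain ⟨M, hM⟩ := bounded_of_inv C B hB R
    refine ⟨M, fun l hl hs => ?_⟩
    obtain ⟨σ, rfl⟩ := exists_ofFn hl
    rw [ofF_sg]
    exact (hfB σ).trans (hM σ hs)

end Pool.Agent.H36PDN
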