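import Mathlib
import Pool.Agent.AutDim3.Main
import Pool.Agent.H36PD4.Main
import Pool.Agent.H36PDN.Cyc

set_option autoImplicit false

/-!
# Automatic groups with duality in dimension `k + 2` contain no group with a fundamental chain of
dimension `k + 1`
-/

namespace Pool.Agent.H36PDN

open Pool.Agent.AutDim3
open Pool.Agent.H9DimN (Fund)
open Pool.Agent.H36PD4 (Chain vbd Rel tw Equi Cocyc vbd_single pair pair_single pair_rel pair_vbd pr
  pr_single pr_add pr_smul perm perm_single pr_perm tw_apply sq_sign abs_sign sign_inv tw_tw Bdd permB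
  permB_apply prB prB_apply pair_zero exists_b gen_of_automatic)

theorem pair_capOne {G : Type} {V : Type} [AddCommGroup V] [Module ℝ V] {k : ℕ}
    (Φ : (Fin (k + 2) → G) → (V →ₗ[ℝ] ℝ)) (μ : Chain G (k + 2) ℝ) (c : (Fin 2 → G) → V) :
    pair Φ (capOne μ c : Chain G (k + 1) V) =
      μ.sum fun σ r => r * Φ (fun i => σ i.castSucc)
        (c ![σ (Fin.last (k + 1)).castSucc, σ (Fin.last (k + 2))]) := by
  rw [capOne, Finsupp.sum, map_sum, Finsupp.sum]
  apply Finset.sum_congr rfl
  intro σ _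
  rw [pair_single, map_smul, smul_eq_mul]

theorem pair_capTop {G : Type} {V : Type} [AddCommGroup V] [Module ℝ V] {k : ℕ}
    (Φ : (Fin 2 → G) → (V →ₗ[ℝ] ℝ)) (μ : Chain G (k + 2) ℝ) (F : (Fin (k + 2) → G) → V) :
    pair Φ (capTop μ F : Chain G 1 V) =
      μ.sum fun σ r => r * Φ ![σ (Fin.last (k + 1)).castSucc, σ (Fin.last (k + 2))]
        (F (fun i => σ i.castSucc)) := by
  rw [capTop, Finsupp.sum, map_sum, Finsupp.sum]
  apply Finset.sum_congr rfl
  intro σ _
  rw [pair_single, map_smul, smul_eq_mul]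

/-- Homologous chains have the same pairing with a cocycle. -/
theorem pair_transfer {G X : Type} [Group G] [MulAction G X] {k : ℕ}
    (P : (Fin (k + 2) → G) → X → ℝ)
    (hP : ∀ (g : G) (σ : Fin (k + 2) → G) (x : X), P (fun i => g * σ i) (g • x) = P σ x)
    (hc : ∀ (τ : Fin (k + 3) → G) (x : X),
      ∑ i : Fin (k + 3), (-1 : ℝ) ^ (i : ℕ) * P (fun j => τ (i.succAbove j)) x = 0)
    {z y : Chain G (k + 1) (X →₀ ℝ)} {u : Chain G (k + 2) (X →₀ ℝ)}
    (h : z - y - vbd u ∈ Rel (perm G X) (k + 1)) :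
    pair (fun σ => pr (P σ)) z = pair (fun σ => pr (P σ)) y := by
  have h1 := pair_rel (perm G X) (fun σ => pr (P σ))
    (fun g σ v => pr_perm g _ _ (hP g σ) v) h
  rw [map_sub, map_sub, pair_vbd, pair_zero _ ?_ u, sub_zero] at h1
  · linarith
  · intro τ
    apply Finsupp.lhom_ext
    intro x r
    simp only [LinearMap.sum_apply, LinearMap.smul_apply, pr_single, smul_eq_mul,
      LinearMap.zero_apply]
    have h2 := hc τ x
    have h3 : ∑ i : Fin (k + 3), (-1 : ℝ) ^ (i : ℕ) * (r * P (fun j => τ (i.succAbove j)) x) =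
        r * ∑ i : Fin (k + 3), (-1 : ℝ) ^ (i : ℕ) * P (fun j => τ (i.succAbove j)) x := by
      rw [Finset.mul_sum]
      apply Finset.sum_congr rfl
      intro i _
      ring
    rw [h3, h2, mul_zero]

/-- Bounded cocycles vanish on the transfer of the fundamental chain. -/
theorem bounded_zero {N G : Type} [Group N] [Group G] {k : ℕ} (fd : Fund N (k + 1))
    (hG : IsAutomatic G) (φ : N →* G) {X : Type}
    [MulAction G X] (x₀ : X) (hx : ∀ n, φ n • x₀ = x₀) (F : (Fin (k + 2) → G) → Bdd X)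
    (hF : Equi (permB G X) (n := k + 1) F) (hc : Cocyc (n := k + 1) F) :
    pair (fun σ => pr (F σ).1) (T φ (Finsupp.single x₀ (1 : ℝ)) (k + 1) fd.z) = 0 := by
  have : Nonempty X := ⟨x₀⟩
  rw [T_pair φ _ _ fd.mem]
  have e : (fun σ => pr (F σ).1 (Finsupp.single x₀ 1)) = fun σ => (F σ).1 x₀ := by
    ext σ
    rw [pr_single, one_mul]
  rw [e]
  refine fund_zero fd hG φ _ ?_ (fun σ => ⨆ x, |(F σ).1 x|) ?_ ?_ ?_
  · intro n σ
    rw [hF (φ n) σ, permB_apply]
    have : (φ n)⁻¹ • x₀ = x₀ := by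
      rw [inv_smul_eq_iff, hx]
    rw [this]
  · intro g σ
    simp only [hF g σ, permB_apply]
    exact (MulAction.toPerm (g⁻¹ : G)).iSup_comp (g := fun x : X => |(F σ).1 x|)
  · intro σ
    obtain ⟨M, hM⟩ := (F σ).2
    exact le_ciSup (f := fun x => |(F σ).1 x|) ⟨M, by rintro _ ⟨x, rfl⟩; exact hM x⟩ x₀
  · intro τ
    have h1 := congrArg (prB (Finsupp.single x₀ (1 : ℝ))) (hc τ)
    rw [map_sum, map_zero] at h1
    simp only [map_smul, prB_apply, pr_single, one_mul, smul_eq_mul] at h1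
    exact h1

/-- A cocycle whose cap product is homologous to the transfer of the fundamental chain pairs to zero
with all bounded cycles. -/
theorem cycle_zero {N G : Type} [Group N] [Group G] {k : ℕ} (fd : Fund N (k + 1))
    (hG : IsAutomatic G) (φ : N →* G) {X : Type}
    [MulAction G X] (x₀ : X) (hx : ∀ n, φ n • x₀ = x₀) (w : G →* ℤˣ) (μ : Chain G (k + 2) ℝ)
    (c : (Fin 2 → G) → (X →₀ ℝ)) (hc : Equi (tw w (perm G X)) (n := 1) c)
    (hcc : Cocyc (n := 1) c) (u : Chain G (k + 2) (X →₀ ℝ))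
    (h : T φ (Finsupp.single x₀ (1 : ℝ)) (k + 1) fd.z - capOne μ c - vbd u ∈
      Rel (perm G X) (k + 1))
    (q : Chain G 1 (Bdd X)) (F : (Fin (k + 2) → G) → Bdd X)
    (hF : Equi (permB G X) (n := k + 1) F)
    (hFc : Cocyc (n := k + 1) F) (u' : Chain G 2 (Bdd X))
    (hq : q - capTop μ F - vbd u' ∈ Rel (tw w (permB G X)) 1) :
    pair (fun σ => prB (c σ)) q = 0 := by
  have h1 := bounded_zero fd hG φ x₀ hx F hF hFc
  rw [pair_transfer (fun σ => (F σ).1) ?_ ?_ h, pair_capOne] at h1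
  · have h2 := pair_rel (tw w (permB G X)) (fun σ => prB (c σ)) ?_ hq
    · rw [map_sub, map_sub, pair_vbd, pair_zero _ ?_ u', sub_zero, pair_capTop] at h2
      · have h3 : (μ.sum fun σ r => r * prB (c ![σ (Fin.last (k + 1)).castSucc,
            σ (Fin.last (k + 2))]) (F (fun i => σ i.castSucc))) = 0 := h1
        rw [h3, sub_zero] at h2
        exact h2
      · intro τ
        ext f
        simp only [LinearMap.sum_apply, LinearMap.smul_apply, prB_apply, LinearMap.zero_apply]
        have h4 := congrArg (pr f.1) (hcc τ)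
        rw [map_sum, map_zero] at h4
        simp only [map_smul] at h4
        exact h4
    · intro g σ f
      rw [hc g σ, prB_apply, tw_apply, tw_apply, map_smul]
      have h5 : ((((w g : ℤ) : ℝ) • permB G X g f : Bdd X) : X → ℝ) =
          ((w g : ℤ) : ℝ) • (permB G X g f).1 := rfl
      rw [h5, pr_smul, smul_eq_mul, ← mul_assoc, sq_sign, one_mul, prB_apply]
      apply pr_perm
      intro x
      rw [permB_apply, inv_smul_smul]
  · intro g σ x
    rw [hF g σ, permB_apply, inv_smul_smul]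
  · intro τ x
    have h1 := congrArg (prB (Finsupp.single x (1 : ℝ))) (hFc τ)
    rw [map_sum, map_zero] at h1
    simp only [map_smul, prB_apply, pr_single, one_mul, smul_eq_mul] at h1
    exact h1

/-- Function-valued cochains from invariant functions. -/
noncomputable def coind {G : Type} [Group G] (N : Subgroup G) {j : ℕ} (f : (Fin j → G) → ℝ) :
    (Fin j → G) → (G ⧸ N) → ℝ :=
  fun σ x => f (fun i => x.out⁻¹ * σ i)

theorem coind_equi {G : Type} [Group G] (N : Subgroup G) {j : ℕ} (f : (Fin j → G) → ℝ)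
    (hf : ∀ n ∈ N, ∀ σ : Fin j → G, f (fun i => n * σ i) = f σ) (g : G) (σ : Fin j → G)
    (x : G ⧸ N) : coind N f (fun i => g * σ i) (g • x) = coind N f σ x := by
  have h2 : (g * x.out)⁻¹ * (g • x).out ∈ N := by
    rw [← QuotientGroup.eq, QuotientGroup.out_eq']
    conv_rhs => rw [← QuotientGroup.out_eq' x]
    rfl
  simp only [coind]
  rw [← hf _ h2 (fun i => (g • x).out⁻¹ * (g * σ i))]
  congr 1
  ext i
  group

theorem coind_one {G : Type} [Group G] (N : Subgroup G) {j : ℕ} (f : (Fin j → G) → ℝ)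
    (hf : ∀ n ∈ N, ∀ σ : Fin j → G, f (fun i => n * σ i) = f σ) (σ : Fin j → G) :
    coind N f σ ((1 : G) : G ⧸ N) = f σ := by
  simp only [coind]
  apply hf
  rw [inv_mem_iff]
  have : ((((1 : G) : G ⧸ N).out : G) : G ⧸ N) = ((1 : G) : G ⧸ N) := QuotientGroup.out_eq' _
  rw [QuotientGroup.eq] at this
  have h2 := N.inv_mem this
  simpa using h2

/-- An automatic group with duality in dimension `k + 2` contains no group with a fundamental chain of
dimension `k + 1`. -/
theorem no_fund {N G : Type} [Group N] [Group G] {k : ℕ} (fd : Fund N (k + 1))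
    (hG : IsAutomatic G) (hd : Duality k G)
    (φ : N →* G) (hφ : Function.Injective φ) : False := by
  obtain ⟨S, hS⟩ := gen_of_automatic hG
  obtain ⟨w, μ, hμ, h31, h13⟩ := hd
  obtain ⟨r, hr1, hr2⟩ := exists_retraction φ hφ
  set K := φ.range with hK
  set x₀ : G ⧸ K := ((1 : G) : G ⧸ K) with hx₀
  have hx : ∀ n, φ n • x₀ = x₀ := by
    intro n
    show ((φ n * 1 : G) : G ⧸ K) = ((1 : G) : G ⧸ K)
    rw [mul_one, QuotientGroup.eq, mul_one]
    exact K.inv_mem ⟨n, rfl⟩
  set z : Chain G (k + 1) ((G ⧸ K) →₀ ℝ) := T φ (Finsupp.single x₀ (1 : ℝ)) (k + 1) fd.z with hz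
  have hzc : vbd z ∈ Rel (tw w (tw w (perm G (G ⧸ K)))) k := by
    rw [tw_tw]
    apply T_cycle
    intro n
    rw [perm_single, hx]
  obtain ⟨c, hc, hcc, u, hu⟩ := h13 _ _ z hzc
  rw [tw_tw] at hu
  obtain ⟨b, hb⟩ := exists_b S hS w c hc hcc (by
    intro q hq
    obtain ⟨F, hF, hFc, u', hu'⟩ := h31 _ _ q hq
    exact cycle_zero fd hG φ x₀ hx w μ c hc hcc u hu q F hF hFc u' hu')
  -- the volume cocycle
  set V : Ch G →ₗ[ℝ] ℝ := fd.nu ∘ₗ push r with hV
  set f : (Fin (k + 2) → G) → ℝ := fun σ => V (sg (List.ofFn σ)) with hf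
  have hfi : ∀ n ∈ K, ∀ σ : Fin (k + 2) → G, f (fun i => n * σ i) = f σ := by
    rintro _ ⟨n, rfl⟩ σ
    simp only [hf, hV, LinearMap.comp_apply, push_sg, List.map_ofFn]
    have h1 := fd.nu_inv n (List.ofFn (r ∘ σ))
    rw [List.map_ofFn] at h1
    rw [← h1]
    congr 3
    ext i
    simp [hr1]
  have hfc : ∀ τ : Fin (k + 3) → G,
      ∑ i : Fin (k + 3), (-1 : ℝ) ^ (i : ℕ) * f (fun j => τ (i.succAbove j)) = 0 := by
    intro τ
    have h1 := fd.nu_closed (List.ofFn (r ∘ τ)) (by rw [List.length_ofFn])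
    rw [bd_ofFn, map_sum] at h1
    rw [← h1]
    apply Finset.sum_congr rfl
    intro i _
    rw [map_smul, smul_eq_mul]
    simp only [hf, hV, LinearMap.comp_apply, push_sg, List.map_ofFn]
    rfl
  set P := coind K f with hP
  have hPe : ∀ (g : G) (σ : Fin (k + 2) → G) (x : G ⧸ K), P (fun i => g * σ i) (g • x) = P σ x :=
    coind_equi K f hfi
  have hPc : ∀ (τ : Fin (k + 3) → G) (x : G ⧸ K),
      ∑ i : Fin (k + 3), (-1 : ℝ) ^ (i : ℕ) * P (fun j => τ (i.succAbove j)) x = 0 := by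
    intro τ x
    exact hfc (fun i => x.out⁻¹ * τ i)
  have h1 : pair (fun σ => pr (P σ)) z = 1 := by
    rw [hz, T_pair φ _ _ fd.mem]
    have e1 : (fun σ => pr (P σ) (Finsupp.single x₀ 1)) = f := by
      ext σ
      rw [pr_single, one_mul]
      exact coind_one K f hfi σ
    rw [e1]
    have e2 : ofF f (push φ fd.z) = V (push φ fd.z) := by
      have := eq_of_sg (ofF f ∘ₗ push φ) (V ∘ₗ push φ) (fun l hl => by
        obtain ⟨σ, rfl⟩ := exists_ofFn hl
        simp only [LinearMap.comp_apply, push_sg, List.map_ofFn]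
        rw [ofF_sg]) fd.mem
      exact this
    rw [e2, hV, LinearMap.comp_apply, push_push]
    have h6 : r ∘ φ = fun x => x := by ext x; simp [hr2]
    rw [h6, push_id, fd.nu_z]
  rw [pair_transfer P hPe hPc hu, pair_capOne] at h1
  -- the cap product with a coboundary is a boundary
  set E : (Fin (k + 2) → G) → (ℝ →ₗ[ℝ] ℝ) := fun τ =>
    (pr (P τ) (tw w (perm G (G ⧸ K)) (τ (Fin.last (k + 1))) b)) • LinearMap.id with hE
  have h2 : pair E (vbd μ) = 0 := by
    refine pair_rel _ E ?_ hμ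
    intro g σ a
    simp only [hE, LinearMap.smul_apply, LinearMap.id_apply, smul_eq_mul, tw_apply, map_mul,
      Module.End.mul_apply, map_smul, MonoidHom.one_apply, Module.End.one_apply, Units.val_mul,
      Int.cast_mul]
    rw [pr_perm g (P σ) _ (hPe g σ)]
    have h3 := sq_sign w g
    linear_combination (((w (σ (Fin.last (k + 1))) : ℤ) : ℝ) *
      (pr (P σ)) (perm G (G ⧸ K) (σ (Fin.last (k + 1))) b) * a) * h3
  rw [pair_vbd] at h2
  have h3 : pair (fun τ : Fin (k + 3) → G =>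
      ∑ i : Fin (k + 3), (-1 : ℝ) ^ (i : ℕ) • E (fun j => τ (i.succAbove j))) μ =
      (-1 : ℝ) ^ (k + 1) * μ.sum fun σ r => r * pr (P (fun i => σ i.castSucc))
        (c ![σ (Fin.last (k + 1)).castSucc, σ (Fin.last (k + 2))]) := by
    rw [pair, Finsupp.lsum_apply, Finsupp.sum, Finsupp.sum, Finset.mul_sum]
    apply Finset.sum_congr rfl
    intro σ _
    have h4 : ∑ i : Fin (k + 3), (-1 : ℝ) ^ (i : ℕ) *
        pr (P (fun j => σ (i.succAbove j))) (tw w (perm G (G ⧸ K)) (σ (Fin.last (k + 2))) b) =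
        0 := by
      have h5 : ∑ i : Fin (k + 3), (-1 : ℝ) ^ (i : ℕ) • pr (P (fun j => σ (i.succAbove j))) = 0 := by
        apply Finsupp.lhom_ext
        intro x a
        simp only [LinearMap.sum_apply, LinearMap.smul_apply, pr_single, smul_eq_mul,
          LinearMap.zero_apply]
        have h6 : ∑ i : Fin (k + 3), (-1 : ℝ) ^ (i : ℕ) *
            (a * P (fun j => σ (i.succAbove j)) x) =
            a * ∑ i : Fin (k + 3), (-1 : ℝ) ^ (i : ℕ) * P (fun j => σ (i.succAbove j)) x := by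
          rw [Finset.mul_sum]
          apply Finset.sum_congr rfl
          intro i _
          ring
        rw [h6, hPc, mul_zero]
      have h7 := LinearMap.congr_fun h5 (tw w (perm G (G ⧸ K)) (σ (Fin.last (k + 2))) b)
      simpa only [LinearMap.sum_apply, LinearMap.smul_apply, smul_eq_mul,
        LinearMap.zero_apply] using h7
    rw [LinearMap.sum_apply, hb, map_sub]
    have hlast : (fun j : Fin (k + 2) => σ ((Fin.last (k + 2)).succAbove j)) =
        fun i => σ i.castSucc := by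
      ext j
      rw [Fin.succAbove_last]
    have hmid : ∀ i : Fin (k + 2), (i.castSucc).succAbove (Fin.last (k + 1)) = Fin.last (k + 2) := by
      intro i
      rw [Fin.succAbove_castSucc_of_le _ _ (Fin.le_last i), Fin.succ_last]
    rw [Fin.sum_univ_castSucc] at h4 ⊢
    simp only [hE, LinearMap.smul_apply, LinearMap.id_apply, smul_eq_mul, hmid, hlast,
      Fin.val_last, Fin.val_castSucc] at h4 ⊢
    have h8 : ∑ x : Fin (k + 2), (-1 : ℝ) ^ (x : ℕ) *
        ((pr (P fun j => σ (x.castSucc.succAbove j)))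
          (tw w (perm G (G ⧸ K)) (σ (Fin.last (k + 2))) b) * μ σ) =
        (∑ x : Fin (k + 2), (-1 : ℝ) ^ (x : ℕ) *
        ((pr (P fun j => σ (x.castSucc.succAbove j)))
          (tw w (perm G (G ⧸ K)) (σ (Fin.last (k + 2))) b))) * μ σ := by
      rw [Finset.sum_mul]
      apply Finset.sum_congr rfl
      intro i _
      ring
    rw [h8]
    have h9 : (-1 : ℝ) ^ (k + 2) = - (-1 : ℝ) ^ (k + 1) := by rw [pow_succ]; ring
    rw [h9] at h4 ⊢
    linear_combination (μ σ) * h4
  rw [h3, h1, mul_one] at h2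
  exact absurd h2 (pow_ne_zero _ (by norm_num))

end Pool.Agent.H36PDN
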