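import Mathlib
import Pool.Agent.H36PDN.Main

set_option autoImplicit false

/-!
# The same for an arbitrary cycle
-/

namespace Pool.Agent.H36PDN

open Pool.Agent.AutDim3
open Pool.Agent.H36PD4 (Chain vbd Rel tw Equi Cocyc vbd_single pair pair_single pair_rel pair_vbd pr
  pr_single pr_add pr_smul perm perm_single pr_perm tw_apply sq_sign abs_sign sign_inv tw_tw Bdd permB
  permB_apply prB prB_apply pair_zero exists_b gen_of_automatic)

/-- Chains which are cycles for invariant functionals. -/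
def IsCyc {N : Type} [Group N] (z : Ch N) : Prop :=
  ∀ E : Ch N →ₗ[ℝ] ℝ, InvUnder (MonoidHom.id N) E → E (bd z) = 0

/-- Invariant cocycles which are bounded on small lists vanish on the cycle. -/
def Vanishes {N G : Type} [Group N] [Group G] (k : ℕ) (C : Comb G) (φ : N →* G) (z : Ch N) : Prop :=
  ∀ F : Ch G →ₗ[ℝ] ℝ, InvUnder φ F → Closed (k + 2) F →
    (∀ R : ℕ, ∃ M : ℝ, ∀ l : List G, l.length = k + 2 → C.Small R l → |F (sg l)| ≤ M) →
    F (push φ z) = 0

/-- The transfer of the fundamental chain is a cycle. -/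
theorem gT_cycle {N G V : Type} [Group N] [Group G] [AddCommGroup V] [Module ℝ V] {k : ℕ}
    {z : Ch N} (hz : z ∈ Deg (G := N) (k + 2)) (cyc : IsCyc z) (φ : N →* G)
    (ρ : Representation ℝ G V) (v₀ : V) (h : ∀ n, ρ (φ n) v₀ = v₀) :
    vbd (T φ v₀ (k + 1) z) ∈ Rel ρ k := by
  rw [← T_bd φ v₀ hz, ← Submodule.Quotient.mk_eq_zero, ← Submodule.mkQ_apply]
  rw [← Module.forall_dual_apply_eq_zero_iff ℝ]
  intro f
  have := cyc (f ∘ₗ (Rel ρ k).mkQ ∘ₗ T φ v₀ k) (by
    intro n l
    simp only [LinearMap.comp_apply, MonoidHom.id_apply]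
    by_cases hl : l.length = k + 1
    · obtain ⟨σ, rfl⟩ := exists_ofFn hl
      rw [List.map_ofFn, T_sg, T_sg]
      congr 1
      rw [Submodule.mkQ_apply, Submodule.mkQ_apply, Submodule.Quotient.eq]
      apply Submodule.subset_span
      refine ⟨φ n, fun i => φ (σ i), v₀, ?_⟩
      rw [h]
      congr 2
      ext i
      simp
    · rw [T_sg_ne φ v₀ k hl, T_sg_ne φ v₀ k (by simpa using hl)])
  exact this

/-- A cocycle which is invariant under a group with a fundamental chain and bounded by a `G`-invariant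
function vanishes on the fundamental chain. -/
theorem g_fund_zero {N G : Type} [Group N] [Group G] {k : ℕ} (C : Comb G)
    (φ : N →* G) {z : Ch N} (hv : Vanishes k C φ z)
    (f : (Fin (k + 2) → G) → ℝ)
    (hf : ∀ (n : N) (σ : Fin (k + 2) → G), f (fun i => φ n * σ i) = f σ)
    (B : (Fin (k + 2) → G) → ℝ)
    (hB : ∀ (g : G) (σ : Fin (k + 2) → G), B (fun i => g * σ i) = B σ)
    (hfB : ∀ σ, |f σ| ≤ B σ)
    (hc : ∀ τ : Fin (k + 3) → G,
      ∑ i : Fin (k + 3), (-1 : ℝ) ^ (i : ℕ) * f (fun j => τ (i.succAbove j)) = 0) :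
    ofF f (push φ z) = 0 := by
  refine hv (ofF f) ?_ ?_ ?_
  · intro n l
    by_cases hl : l.length = k + 2
    · obtain ⟨σ, rfl⟩ := exists_ofFn hl
      rw [List.map_ofFn, ofF_sg, ofF_sg]
      exact hf n σ
    · rw [ofF_sg_ne f hl, ofF_sg_ne f (by simpa using hl)]
  · intro l hl
    obtain ⟨τ, rfl⟩ := exists_ofFn hl
    rw [bd_ofFn, map_sum, ← hc τ]
    apply Finset.sum_congr rfl
    intro i _
    rw [map_smul, ofF_sg, smul_eq_mul]
  · intro R
    obtain ⟨M, hM⟩ := bounded_of_inv C B hB R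
    refine ⟨M, fun l hl hs => ?_⟩
    obtain ⟨σ, rfl⟩ := exists_ofFn hl
    rw [ofF_sg]
    exact (hfB σ).trans (hM σ hs)

/-- Bounded cocycles vanish on the transfer of the fundamental chain. -/
theorem g_bounded_zero {N G : Type} [Group N] [Group G] {k : ℕ} (C : Comb G) (φ : N →* G)
    {z : Ch N} (hz : z ∈ Deg (G := N) (k + 2)) (hv : Vanishes k C φ z) {X : Type}
    [MulAction G X] (x₀ : X) (hx : ∀ n, φ n • x₀ = x₀) (F : (Fin (k + 2) → G) → Bdd X)
    (hF : Equi (permB G X) (n := k + 1) F) (hc : Cocyc (n := k + 1) F) :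
    pair (fun σ => pr (F σ).1) (T φ (Finsupp.single x₀ (1 : ℝ)) (k + 1) z) = 0 := by
  have : Nonempty X := ⟨x₀⟩
  rw [T_pair φ _ _ hz]
  have e : (fun σ => pr (F σ).1 (Finsupp.single x₀ 1)) = fun σ => (F σ).1 x₀ := by
    ext σ
    rw [pr_single, one_mul]
  rw [e]
  refine g_fund_zero C φ hv _ ?_ (fun σ => ⨆ x, |(F σ).1 x|) ?_ ?_ ?_
  · intro n σ
    rw [hF (φ n) σ, permB_apply]
    have : (φ n)⁻¹ • x₀ = x₀ := by
      rw [inv_smul_eq_iff, hx]
    rw [this]
  · intro g σ
    simp only [hF g σ, permB_apply]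
    exact (MulAction.toPerm (g⁻¹ : G)).iSup_comp (g := fun x : X => |(F σ).1 x|)
  · intro σ
    obtain ⟨M, hM⟩ := (F σ).2
    exact le_ciSup (f := fun x => |(F σ).1 x|) ⟨M, by rintro _ ⟨x, rfl⟩; exact hM x⟩ x₀
  · intro τ
    have h1 := congrArg (prB (Finsupp.single x₀ (1 : ℝ))) (hc τ)
    rw [map_sum, map_zero] at h1
    simp only [map_smul, prB_apply, pr_single, one_mul, smul_eq_mul] at h1
    exact h1

/-- A cocycle whose cap product is homologous to the transfer of the fundamental chain pairs to zero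
with all bounded cycles. -/
theorem g_cycle_zero {N G : Type} [Group N] [Group G] {k : ℕ} (C : Comb G) (φ : N →* G)
    {z : Ch N} (hz : z ∈ Deg (G := N) (k + 2)) (hv : Vanishes k C φ z) {X : Type}
    [MulAction G X] (x₀ : X) (hx : ∀ n, φ n • x₀ = x₀) (w : G →* ℤˣ) (μ : Chain G (k + 2) ℝ)
    (c : (Fin 2 → G) → (X →₀ ℝ)) (hc : Equi (tw w (perm G X)) (n := 1) c)
    (hcc : Cocyc (n := 1) c) (u : Chain G (k + 2) (X →₀ ℝ))
    (h : T φ (Finsupp.single x₀ (1 : ℝ)) (k + 1) z - capOne μ c - vbd u ∈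
      Rel (perm G X) (k + 1))
    (q : Chain G 1 (Bdd X)) (F : (Fin (k + 2) → G) → Bdd X)
    (hF : Equi (permB G X) (n := k + 1) F)
    (hFc : Cocyc (n := k + 1) F) (u' : Chain G 2 (Bdd X))
    (hq : q - capTop μ F - vbd u' ∈ Rel (tw w (permB G X)) 1) :
    pair (fun σ => prB (c σ)) q = 0 := by
  have h1 := g_bounded_zero C φ hz hv x₀ hx F hF hFc
  rw [pair_transfer (fun σ => (F σ).1) ?_ ?_ h, pair_capOne] at h1
  · have h2 := pair_rel (tw w (permB G X)) (fun σ => prB (c σ)) ?_ hq
    · rw [map_sub, map_sub, pair_vbd, pair_zero _ ?_ u', sub_zero, pair_capTop] at h2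
      · have h3 : (μ.sum fun σ r => r * prB (c ![σ (Fin.last (k + 1)).castSucc,
            σ (Fin.last (k + 2))]) (F (fun i => σ i.castSucc))) = 0 := h1
        rw [h3, sub_zero] at h2
        exact h2
      · intro τ
        ext f
        simp only [LinearMap.sum_apply, LinearMap.smul_apply, prB_apply, LinearMap.zero_apply]
        have h4 := congrArg (pr f.1) (hcc τ)
        rw [map_sum, map_zero] at h4
        simp only [map_smul] at h4
        exact h4
    · intro g σ f
      rw [hc g σ, prB_apply, tw_apply, tw_apply, map_smul]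
      have h5 : ((((w g : ℤ) : ℝ) • permB G X g f : Bdd X) : X → ℝ) =
          ((w g : ℤ) : ℝ) • (permB G X g f).1 := rfl
      rw [h5, pr_smul, smul_eq_mul, ← mul_assoc, sq_sign, one_mul, prB_apply]
      apply pr_perm
      intro x
      rw [permB_apply, inv_smul_smul]
  · intro g σ x
    rw [hF g σ, permB_apply, inv_smul_smul]
  · intro τ x
    have h1 := congrArg (prB (Finsupp.single x (1 : ℝ))) (hFc τ)
    rw [map_sum, map_zero] at h1
    simp only [map_smul, prB_apply, pr_single, one_mul, smul_eq_mul] at h1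
    exact h1

/-- In an automatic group with duality in dimension `k + 2`, a `(k + 1)`-cycle of a subgroup on which
all invariant cocycles of the group vanish which are bounded on small lists is killed by all invariant
cocycles of the subgroup. -/
theorem gen_zero {N G : Type} [Group N] [Group G] {k : ℕ}
    (hG : IsAutomatic G) (hd : Duality k G) (C : Comb G)
    (φ : N →* G) (hφ : Function.Injective φ) (y : Ch N) (hy : y ∈ Deg (G := N) (k + 2))
    (cyc : IsCyc y) (hv : Vanishes k C φ y) (nu : Ch N →ₗ[ℝ] ℝ)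
    (nu_inv : InvUnder (MonoidHom.id N) nu) (nu_closed : Closed (k + 2) nu) : nu y = 0 := by
  obtain ⟨S, hS⟩ := gen_of_automatic hG
  obtain ⟨w, μ, hμ, h31, h13⟩ := hd
  obtain ⟨r, hr1, hr2⟩ := exists_retraction φ hφ
  set K := φ.range with hK
  set x₀ : G ⧸ K := ((1 : G) : G ⧸ K) with hx₀
  have hx : ∀ n, φ n • x₀ = x₀ := by
    intro n
    show ((φ n * 1 : G) : G ⧸ K) = ((1 : G) : G ⧸ K)
    rw [mul_one, QuotientGroup.eq, mul_one]
    exact K.inv_mem ⟨n, rfl⟩
  set z : Chain G (k + 1) ((G ⧸ K) →₀ ℝ) := T φ (Finsupp.single x₀ (1 : ℝ)) (k + 1) y with hz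
  have hzc : vbd z ∈ Rel (tw w (tw w (perm G (G ⧸ K)))) k := by
    rw [tw_tw]
    apply gT_cycle hy cyc
    intro n
    rw [perm_single, hx]
  obtain ⟨c, hc, hcc, u, hu⟩ := h13 _ _ z hzc
  rw [tw_tw] at hu
  obtain ⟨b, hb⟩ := exists_b S hS w c hc hcc (by
    intro q hq
    obtain ⟨F, hF, hFc, u', hu'⟩ := h31 _ _ q hq
    exact g_cycle_zero C φ hy hv x₀ hx w μ c hc hcc u hu q F hF hFc u' hu')
  -- the volume cocycle
  set V : Ch G →ₗ[ℝ] ℝ := nu ∘ₗ push r with hV
  set f : (Fin (k + 2) → G) → ℝ := fun σ => V (sg (List.ofFn σ)) with hf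
  have hfi : ∀ n ∈ K, ∀ σ : Fin (k + 2) → G, f (fun i => n * σ i) = f σ := by
    rintro _ ⟨n, rfl⟩ σ
    simp only [hf, hV, LinearMap.comp_apply, push_sg, List.map_ofFn]
    have h1 := nu_inv n (List.ofFn (r ∘ σ))
    rw [List.map_ofFn] at h1
    rw [← h1]
    congr 3
    ext i
    simp [hr1]
  have hfc : ∀ τ : Fin (k + 3) → G,
      ∑ i : Fin (k + 3), (-1 : ℝ) ^ (i : ℕ) * f (fun j => τ (i.succAbove j)) = 0 := by
    intro τ
    have h1 := nu_closed (List.ofFn (r ∘ τ)) (by rw [List.length_ofFn])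
    rw [bd_ofFn, map_sum] at h1
    rw [← h1]
    apply Finset.sum_congr rfl
    intro i _
    rw [map_smul, smul_eq_mul]
    simp only [hf, hV, LinearMap.comp_apply, push_sg, List.map_ofFn]
    rfl
  set P := coind K f with hP
  have hPe : ∀ (g : G) (σ : Fin (k + 2) → G) (x : G ⧸ K), P (fun i => g * σ i) (g • x) = P σ x :=
    coind_equi K f hfi
  have hPc : ∀ (τ : Fin (k + 3) → G) (x : G ⧸ K),
      ∑ i : Fin (k + 3), (-1 : ℝ) ^ (i : ℕ) * P (fun j => τ (i.succAbove j)) x = 0 := by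
    intro τ x
    exact hfc (fun i => x.out⁻¹ * τ i)
  have h1 : pair (fun σ => pr (P σ)) z = nu y := by
    rw [hz, T_pair φ _ _ hy]
    have e1 : (fun σ => pr (P σ) (Finsupp.single x₀ 1)) = f := by
      ext σ
      rw [pr_single, one_mul]
      exact coind_one K f hfi σ
    rw [e1]
    have e2 : ofF f (push φ y) = V (push φ y) := by
      have := eq_of_sg (ofF f ∘ₗ push φ) (V ∘ₗ push φ) (fun l hl => by
        obtain ⟨σ, rfl⟩ := exists_ofFn hl
        simp only [LinearMap.comp_apply, push_sg, List.map_ofFn]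
        rw [ofF_sg]) hy
      exact this
    rw [e2, hV, LinearMap.comp_apply, push_push]
    have h6 : r ∘ φ = fun x => x := by ext x; simp [hr2]
    rw [h6, push_id]
  rw [pair_transfer P hPe hPc hu, pair_capOne] at h1
  -- the cap product with a coboundary is a boundary
  set E : (Fin (k + 2) → G) → (ℝ →ₗ[ℝ] ℝ) := fun τ =>
    (pr (P τ) (tw w (perm G (G ⧸ K)) (τ (Fin.last (k + 1))) b)) • LinearMap.id with hE
  have h2 : pair E (vbd μ) = 0 := by
    refine pair_rel _ E ?_ hμ
    intro g σ a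
    simp only [hE, LinearMap.smul_apply, LinearMap.id_apply, smul_eq_mul, tw_apply, map_mul,
      Module.End.mul_apply, map_smul, MonoidHom.one_apply, Module.End.one_apply, Units.val_mul,
      Int.cast_mul]
    rw [pr_perm g (P σ) _ (hPe g σ)]
    have h3 := sq_sign w g
    linear_combination (((w (σ (Fin.last (k + 1))) : ℤ) : ℝ) *
      (pr (P σ)) (perm G (G ⧸ K) (σ (Fin.last (k + 1))) b) * a) * h3
  rw [pair_vbd] at h2
  have h3 : pair (fun τ : Fin (k + 3) → G =>
      ∑ i : Fin (k + 3), (-1 : ℝ) ^ (i : ℕ) • E (fun j => τ (i.succAbove j))) μ =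
      (-1 : ℝ) ^ (k + 1) * μ.sum fun σ r => r * pr (P (fun i => σ i.castSucc))
        (c ![σ (Fin.last (k + 1)).castSucc, σ (Fin.last (k + 2))]) := by
    rw [pair, Finsupp.lsum_apply, Finsupp.sum, Finsupp.sum, Finset.mul_sum]
    apply Finset.sum_congr rfl
    intro σ _
    have h4 : ∑ i : Fin (k + 3), (-1 : ℝ) ^ (i : ℕ) *
        pr (P (fun j => σ (i.succAbove j))) (tw w (perm G (G ⧸ K)) (σ (Fin.last (k + 2))) b) =
        0 := by
      have h5 : ∑ i : Fin (k + 3), (-1 : ℝ) ^ (i : ℕ) • pr (P (fun j => σ (i.succAbove j))) = 0 := by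
        apply Finsupp.lhom_ext
        intro x a
        simp only [LinearMap.sum_apply, LinearMap.smul_apply, pr_single, smul_eq_mul,
          LinearMap.zero_apply]
        have h6 : ∑ i : Fin (k + 3), (-1 : ℝ) ^ (i : ℕ) *
            (a * P (fun j => σ (i.succAbove j)) x) =
            a * ∑ i : Fin (k + 3), (-1 : ℝ) ^ (i : ℕ) * P (fun j => σ (i.succAbove j)) x := by
          rw [Finset.mul_sum]
          apply Finset.sum_congr rfl
          intro i _
          ring
        rw [h6, hPc, mul_zero]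
      have h7 := LinearMap.congr_fun h5 (tw w (perm G (G ⧸ K)) (σ (Fin.last (k + 2))) b)
      simpa only [LinearMap.sum_apply, LinearMap.smul_apply, smul_eq_mul,
        LinearMap.zero_apply] using h7
    rw [LinearMap.sum_apply, hb, map_sub]
    have hlast : (fun j : Fin (k + 2) => σ ((Fin.last (k + 2)).succAbove j)) =
        fun i => σ i.castSucc := by
      ext j
      rw [Fin.succAbove_last]
    have hmid : ∀ i : Fin (k + 2), (i.castSucc).succAbove (Fin.last (k + 1)) = Fin.last (k + 2) := by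
      intro i
      rw [Fin.succAbove_castSucc_of_le _ _ (Fin.le_last i), Fin.succ_last]
    rw [Fin.sum_univ_castSucc] at h4 ⊢
    simp only [hE, LinearMap.smul_apply, LinearMap.id_apply, smul_eq_mul, hmid, hlast,
      Fin.val_last, Fin.val_castSucc] at h4 ⊢
    have h8 : ∑ x : Fin (k + 2), (-1 : ℝ) ^ (x : ℕ) *
        ((pr (P fun j => σ (x.castSucc.succAbove j)))
          (tw w (perm G (G ⧸ K)) (σ (Fin.last (k + 2))) b) * μ σ) =
        (∑ x : Fin (k + 2), (-1 : ℝ) ^ (x : ℕ) *
        ((pr (P fun j => σ (x.castSucc.succAbove j)))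
          (tw w (perm G (G ⧸ K)) (σ (Fin.last (k + 2))) b))) * μ σ := by
      rw [Finset.sum_mul]
      apply Finset.sum_congr rfl
      intro i _
      ring
    rw [h8]
    have h9 : (-1 : ℝ) ^ (k + 2) = - (-1 : ℝ) ^ (k + 1) := by rw [pow_succ]; ring
    rw [h9] at h4 ⊢
    linear_combination (μ σ) * h4
  rw [h3, h1] at h2
  rcases mul_eq_zero.mp h2 with h | h
  · exact absurd h (pow_ne_zero _ (by norm_num))
  · exact h

end Pool.Agent.H36PDN
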